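import Pool.Agent.H15.HT.Tuple

/-!
# Highly transitive actions: ordered tuples, with a symmetric measure
-/

set_option autoImplicit false

namespace Pool.Agent.H15.HT.Sym

open scoped Pointwise BigOperators
open Pool.Agent.Y39.Liou (stp grow le_stp smul_le_stp le_grow grow_mono Data cc cc_pos hasSum_cc
  sum_cc expect_map)
open Pool.Agent.H15.HT (pts mem_pts pts_smul)

noncomputable section

variable {G X : Type} [Group G] [MulAction G X] [DecidableEq X]

/-- the index set of one step -/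
abbrev II (Z : Finset X) : Type := Bool × Equiv.Perm Z × Equiv.Perm Z

/-- the group elements of one step -/
def rk (D : Data G X) (k : ℕ) (Z : Finset X) (ω : II Z) : G :=
  (D.sel Z ω.2.1)⁻¹ * (if ω.1 then D.h k else (D.h k)⁻¹) * D.sel Z ω.2.2

variable (D : Data G X)

open Classical in
/-- the states -/
def state (D : Data G X) : ℕ → Finset X × Finset G
  | 0 => (∅, ∅)
  | k + 1 =>
    let U' := (state D k).2 ∪ Finset.univ.image (fun ω => rk D k (state D k).1 ω)
    (grow U' (D.N (k + 1)) (insert (D.e k) (state D k).1), U')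

/-- the finite sets -/
def ZZ (k : ℕ) : Finset X := (state D k).1

/-- the finite sets of group elements -/
def UU (k : ℕ) : Finset G := (state D k).2

theorem UU_succ_mem (k : ℕ) (ω : II (ZZ D k)) : rk D k (ZZ D k) ω ∈ UU D (k + 1) := by
  classical
  show _ ∈ (state D k).2 ∪ Finset.univ.image (fun ω => rk D k (state D k).1 ω)
  refine Finset.mem_union_right _ (Finset.mem_image.2 ⟨ω, Finset.mem_univ _, rfl⟩)

theorem UU_mono_succ (k : ℕ) : UU D k ⊆ UU D (k + 1) := by
  classical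
  show _ ⊆ (state D k).2 ∪ Finset.univ.image (fun ω => rk D k (state D k).1 ω)
  exact Finset.subset_union_left

theorem UU_mono {i k : ℕ} (h : i ≤ k) : UU D i ⊆ UU D k := by
  induction k, h using Nat.le_induction with
  | base => exact Finset.Subset.refl _
  | succ k _ ih => exact ih.trans (UU_mono_succ D k)

theorem mem_UU {i k : ℕ} (h : i < k) (ω : II (ZZ D i)) : rk D i (ZZ D i) ω ∈ UU D k :=
  UU_mono D h (UU_succ_mem D i ω)

theorem grow_le_ZZ (k : ℕ) : grow (UU D (k + 1)) (D.N (k + 1)) (insert (D.e k) (ZZ D k)) ⊆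
    ZZ D (k + 1) := by
  exact Finset.Subset.refl _

theorem ZZ_mono_succ (k : ℕ) : ZZ D k ⊆ ZZ D (k + 1) :=
  (Finset.subset_insert _ _).trans ((le_grow _ _ _).trans (grow_le_ZZ D k))

theorem ZZ_mono {i k : ℕ} (h : i ≤ k) : ZZ D i ⊆ ZZ D k := by
  induction k, h using Nat.le_induction with
  | base => exact Finset.Subset.refl _
  | succ k _ ih => exact ih.trans (ZZ_mono_succ D k)

theorem exists_mem_ZZ (x : X) : ∃ k, x ∈ ZZ D k := by
  obtain ⟨k, hk⟩ := D.he x
  exact ⟨k + 1, grow_le_ZZ D k (le_grow _ _ _ (by rw [hk]; exact Finset.mem_insert_self _ _))⟩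

theorem exists_sub_ZZ (W : Finset X) : ∃ k, W ⊆ ZZ D k := by
  induction W using Finset.induction_on with
  | empty => exact ⟨0, Finset.empty_subset _⟩
  | insert a W _ ih =>
    obtain ⟨k, hk⟩ := ih
    obtain ⟨l, hl⟩ := exists_mem_ZZ D a
    refine ⟨max k l, ?_⟩
    intro x hx
    rcases Finset.mem_insert.1 hx with rfl | hx
    · exact ZZ_mono D (le_max_right _ _) hl
    · exact ZZ_mono D (le_max_left _ _) (hk hx)

/-! ### The probability measure -/

/-- the index set -/
abbrev Om : Type := Σ j : ℕ, II (ZZ D j)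

/-- the weights -/
def ww (ω : Om D) : ℝ := cc ω.1 / (Fintype.card (II (ZZ D ω.1)) : ℝ)

theorem ww_pos (ω : Om D) : 0 < ww D ω := by
  unfold ww
  have : 0 < (Fintype.card (II (ZZ D ω.1)) : ℝ) := by exact_mod_cast Fintype.card_pos
  exact div_pos (cc_pos _) this

theorem ww_fib (j : ℕ) : HasSum (fun τ : II (ZZ D j) => ww D ⟨j, τ⟩) (cc j) := by
  have h0 : (Fintype.card (II (ZZ D j)) : ℝ) ≠ 0 := by
    exact_mod_cast Fintype.card_ne_zero
  have h1 := hasSum_fintype (fun τ : II (ZZ D j) => ww D ⟨j, τ⟩)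
  have h2 : ∑ τ : II (ZZ D j), ww D ⟨j, τ⟩ = cc j := by
    have h3 : ∀ τ : II (ZZ D j), ww D ⟨j, τ⟩ =
      cc j / (Fintype.card (II (ZZ D j)) : ℝ) := fun _ => rfl
    rw [Finset.sum_congr rfl (fun τ _ => h3 τ), Finset.sum_const, Finset.card_univ, nsmul_eq_mul]
    field_simp
  rwa [h2] at h1

theorem hasSum_ww : HasSum (ww D) 1 := by
  refine HasSum.sigma_of_hasSum hasSum_cc (ww_fib D) ?_
  rw [summable_sigma_of_nonneg (fun ω => (ww_pos D ω).le)]
  refine ⟨fun j => (ww_fib D j).summable, ?_⟩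
  have : (fun j => ∑' τ : II (ZZ D j), ww D ⟨j, τ⟩) = cc := by
    ext j
    exact (ww_fib D j).tsum_eq
  rw [this]
  exact hasSum_cc.summable

/-- the law on the index set -/
def WW : PMF (Om D) :=
  ⟨fun ω => ENNReal.ofReal (ww D ω), by
    have h1 := (hasSum_ww D)
    have h2 : HasSum (fun ω => ENNReal.ofReal (ww D ω)) (ENNReal.ofReal 1) := by
      rw [← h1.tsum_eq, ENNReal.ofReal_tsum_of_nonneg (fun ω => (ww_pos D ω).le) h1.summable]
      exact ENNReal.summable.hasSum
    rwa [ENNReal.ofReal_one] at h2⟩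

theorem WW_toReal (ω : Om D) : (WW D ω).toReal = ww D ω :=
  ENNReal.toReal_ofReal (ww_pos D ω).le

/-- the element attached to an index -/
def rr (ω : Om D) : G := rk D ω.1 (ZZ D ω.1) ω.2

/-- the measure -/
def mu : PMF G := (WW D).map (rr D)

theorem mu_support (g : G) : mu D g ≠ 0 := by
  obtain ⟨j, hj⟩ := D.hh g
  rw [← PMF.mem_support_iff, mu, PMF.support_map]
  refine ⟨⟨j, (true, 1, 1)⟩, ?_, ?_⟩
  · rw [PMF.mem_support_iff]
    intro h
    have h1 := WW_toReal D ⟨j, (true, 1, 1)⟩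
    rw [h] at h1
    have := ww_pos D ⟨j, (true, 1, 1)⟩
    rw [← h1] at this
    simp at this
  · show (D.sel (ZZ D j) 1)⁻¹ * (if true then D.h j else (D.h j)⁻¹) * D.sel (ZZ D j) 1 = g
    rw [D.hsel1, mul_one, inv_one, one_mul, if_pos rfl, hj]

/-- the symmetry of the index set -/
def flip : Om D ≃ Om D where
  toFun ω := ⟨ω.1, (!ω.2.1, ω.2.2.2, ω.2.2.1)⟩
  invFun ω := ⟨ω.1, (!ω.2.1, ω.2.2.2, ω.2.2.1)⟩
  left_inv ω := by
    obtain ⟨j, ε, τ, υ⟩ := ω
    simp
  right_inv ω := by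
    obtain ⟨j, ε, τ, υ⟩ := ω
    simp

theorem rr_flip (ω : Om D) : rr D (flip D ω) = (rr D ω)⁻¹ := by
  obtain ⟨j, ε, τ, υ⟩ := ω
  show (D.sel (ZZ D j) υ)⁻¹ * (if (!ε) then D.h j else (D.h j)⁻¹) * D.sel (ZZ D j) τ =
    ((D.sel (ZZ D j) τ)⁻¹ * (if ε then D.h j else (D.h j)⁻¹) * D.sel (ZZ D j) υ)⁻¹
  cases ε <;> simp [mul_assoc]

theorem mu_symm (g : G) : mu D g⁻¹ = mu D g := by
  classical
  unfold mu
  rw [PMF.map_apply, PMF.map_apply, ← (flip D).tsum_eq]
  refine tsum_congr fun ω => ?_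
  rw [rr_flip]
  have h1 : WW D (flip D ω) = WW D ω := rfl
  rw [h1]
  by_cases h : g = rr D ω
  · rw [if_pos h, if_pos (by rw [h])]
  · rw [if_neg h, if_neg (fun h2 => h (inv_injective h2))]

/-! ### The main argument -/

/-- the average of `f` over the `j`-th finite set of group elements -/
def av (j : ℕ) {Y : Type} [MulAction G Y] (f : Y → ℝ) (y : Y) : ℝ :=
  (∑ ω : II (ZZ D j), f (rk D j (ZZ D j) ω • y)) / (Fintype.card (II (ZZ D j)) : ℝ)

theorem card_pos' (j : ℕ) : 0 < (Fintype.card (II (ZZ D j)) : ℝ) := by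
  exact_mod_cast Fintype.card_pos

/-- a bounded harmonic function is a mixture of averages -/
theorem harmonic_eq {Y : Type} [MulAction G Y] (f : Y → ℝ) (M : ℝ) (hM : ∀ y, |f y| ≤ M)
    (hf : ∀ y, f y = ∑' g, f (g • y) * (mu D g).toReal) (y : Y) :
    HasSum (fun j => cc j * av D j f y) (f y) := by
  have h1 : f y = ∑' ω : Om D, f (rr D ω • y) * (WW D ω).toReal := by
    rw [hf y]
    exact expect_map (WW D) (rr D) (fun g => f (g • y)) M (fun g => hM _)
  have h2 : Summable (fun ω : Om D => f (rr D ω • y) * (WW D ω).toReal) := by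
    refine Summable.of_norm_bounded (g := fun ω => M * ww D ω)
      ((hasSum_ww D).summable.mul_left M) ?_
    intro ω
    rw [WW_toReal, Real.norm_eq_abs, abs_mul, abs_of_pos (ww_pos D ω)]
    exact mul_le_mul_of_nonneg_right (hM _) (ww_pos D ω).le
  have h3 := h2.hasSum
  rw [← h1] at h3
  refine h3.sigma (fun j => ?_)
  have h4 := hasSum_fintype (fun τ : II (ZZ D j) =>
    f (rr D ⟨j, τ⟩ • y) * (WW D ⟨j, τ⟩).toReal)
  have h5 : ∑ τ : II (ZZ D j), f (rr D ⟨j, τ⟩ • y) * (WW D ⟨j, τ⟩).toReal =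
      cc j * av D j f y := by
    unfold av
    rw [mul_div_assoc', Finset.mul_sum, Finset.sum_div]
    refine Finset.sum_congr rfl fun τ _ => ?_
    rw [WW_toReal]
    show f (rk D j (ZZ D j) τ • y) * (cc j / _) = _
    ring
  rwa [h5] at h4

/-- contraction -/
theorem contract' {Y : Type} [MulAction G Y] (supp : Y → Finset X)
    (hsupp : ∀ (g : G) (y : Y), supp (g • y) ⊆ g • supp y) (k : ℕ) (f : Y → ℝ) (M : ℝ)
    (hM : ∀ y, |f y| ≤ M)
    (hav : ∀ j y z, supp y ⊆ ZZ D j → supp z ⊆ ZZ D j → av D j f y = av D j f z)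
    (hf : ∀ y, HasSum (fun j => cc j * av D j f y) (f y)) (m : ℕ) :
    ∀ W : Finset X, grow (UU D k) m W ⊆ ZZ D k → ∀ A B : Y,
      supp A ⊆ W → supp B ⊆ W → |f A - f B| ≤ (1 - (1 / 2) ^ k) ^ m * (2 * M) := by
  have hs : (0 : ℝ) ≤ 1 - (1 / 2) ^ k := by
    have : ((1 : ℝ) / 2) ^ k ≤ 1 := pow_le_one₀ (by norm_num) (by norm_num)
    linarith
  induction m with
  | zero =>
    intro W _ A B _ _
    rw [pow_zero, one_mul]
    calc |f A - f B| ≤ |f A| + |f B| := abs_sub _ _
      _ ≤ 2 * M := by linarith [hM A, hM B]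
  | succ m ih =>
    intro W hW A B hA hB
    have hWZ : W ⊆ ZZ D k := (le_grow _ _ _).trans hW
    -- the tail
    have htail : ∀ y, HasSum (fun j => cc (j + k) * av D (j + k) f y)
        (f y - ∑ i ∈ Finset.range k, cc i * av D i f y) := by
      intro y
      refine (hasSum_nat_add_iff (f := fun j => cc j * av D j f y) k).2 ?_
      have h9 : f y - ∑ i ∈ Finset.range k, cc i * av D i f y +
          ∑ i ∈ Finset.range k, cc i * av D i f y = f y := by ring
      rw [h9]
      exact hf y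
    have h1 : f A - ∑ i ∈ Finset.range k, cc i * av D i f A =
        f B - ∑ i ∈ Finset.range k, cc i * av D i f B := by
      refine (htail A).unique ?_
      convert htail B using 1
      funext j
      rw [hav (j + k) A B ((hA.trans hWZ).trans (ZZ_mono D (by omega)))
        ((hB.trans hWZ).trans (ZZ_mono D (by omega)))]
    have h2 : f A - f B = ∑ i ∈ Finset.range k, cc i * (av D i f A - av D i f B) := by
      rw [Finset.sum_congr rfl (fun i _ => mul_sub (cc i) (av D i f A) (av D i f B)),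
        Finset.sum_sub_distrib]
      linarith
    have h3 : ∀ i ∈ Finset.range k, |cc i * (av D i f A - av D i f B)| ≤
        cc i * ((1 - (1 / 2) ^ k) ^ m * (2 * M)) := by
      intro i hi
      rw [Finset.mem_range] at hi
      rw [abs_mul, abs_of_pos (cc_pos i)]
      refine mul_le_mul_of_nonneg_left ?_ (cc_pos i).le
      unfold av
      rw [← sub_div, ← Finset.sum_sub_distrib, abs_div, abs_of_pos (card_pos' D i),
        div_le_iff₀ (card_pos' D i)]
      refine (Finset.abs_sum_le_sum_abs _ _).trans ?_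
      refine (Finset.sum_le_card_nsmul _ _ ((1 - (1 / 2) ^ k) ^ m * (2 * M))
        (fun τ _ => ?_)).trans ?_
      · have hg : rk D i (ZZ D i) τ ∈ UU D k := mem_UU D hi τ
        refine ih (stp (UU D k) W) hW _ _ ?_ ?_
        · exact (hsupp _ _).trans
            ((Finset.smul_finset_subset_smul_finset hA).trans (smul_le_stp hg W))
        · exact (hsupp _ _).trans
            ((Finset.smul_finset_subset_smul_finset hB).trans (smul_le_stp hg W))
      · rw [Finset.card_univ, nsmul_eq_mul, mul_comm]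
    rw [h2]
    refine (Finset.abs_sum_le_sum_abs _ _).trans ((Finset.sum_le_sum h3).trans ?_)
    rw [← Finset.sum_mul, sum_cc, pow_succ]
    exact le_of_eq (by ring)

theorem const_of' {Y : Type} [MulAction G Y] (supp : Y → Finset X)
    (hsupp : ∀ (g : G) (y : Y), supp (g • y) ⊆ g • supp y)
    (hN : ∀ k, (1 - (1 / 2 : ℝ) ^ k) ^ D.N k ≤ 1 / (k + 1 : ℝ))
    (f : Y → ℝ) (M : ℝ) (hM : ∀ y, |f y| ≤ M)
    (hav : ∀ j y z, supp y ⊆ ZZ D j → supp z ⊆ ZZ D j → av D j f y = av D j f z)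
    (hf : ∀ y, HasSum (fun j => cc j * av D j f y) (f y)) (A B : Y) : f A = f B := by
  have hM0 : 0 ≤ M := (abs_nonneg _).trans (hM A)
  obtain ⟨k₀, hk₀⟩ := exists_sub_ZZ D (supp A ∪ supp B)
  have key : ∀ k, k₀ ≤ k → |f A - f B| ≤ 1 / ((k : ℝ) + 1) * (2 * M) := by
    intro k hk
    have h1 := contract' D supp hsupp (k + 1) f M hM hav hf (D.N (k + 1)) (supp A ∪ supp B)
      ((grow_mono ((hk₀.trans (ZZ_mono D hk)).trans (Finset.subset_insert _ _)) _).trans
        (grow_le_ZZ D k)) A B Finset.subset_union_left Finset.subset_union_right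
    refine h1.trans (mul_le_mul_of_nonneg_right ((hN (k + 1)).trans ?_) (by linarith))
    apply one_div_le_one_div_of_le
    · positivity
    · push_cast; linarith
  have h2 : Filter.Tendsto (fun k : ℕ => 1 / ((k : ℝ) + 1) * (2 * M)) Filter.atTop
      (nhds (0 * (2 * M))) :=
    tendsto_one_div_add_atTop_nhds_zero_nat.mul_const _
  rw [zero_mul] at h2
  have h3 : |f A - f B| ≤ 0 :=
    ge_of_tendsto h2 (Filter.eventually_atTop.2 ⟨k₀, key⟩)
  have h4 := abs_nonpos_iff.1 h3
  linarith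

/-- the averages agree on the tuples in `Z_j` -/
theorem tuple_av {n : ℕ} (j : ℕ) (f : (Fin n ↪ X) → ℝ) (y z : Fin n ↪ X)
    (hy : pts y ⊆ ZZ D j) (hz : pts z ⊆ ZZ D j) : av D j f y = av D j f z := by
  let y' : Fin n → ZZ D j := fun i => ⟨y i, hy (mem_pts y i)⟩
  let z' : Fin n → ZZ D j := fun i => ⟨z i, hz (mem_pts z i)⟩
  have hy' : Function.Injective y' := fun i i' h => y.injective (congrArg Subtype.val h)
  have hz' : Function.Injective z' := fun i i' h => z.injective (congrArg Subtype.val h)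
  obtain ⟨ρ, hρ⟩ := Equiv.Perm.exists_extending_pair y' z' hy' hz'
  unfold av
  congr 1
  rw [← Equiv.sum_comp ((Equiv.refl Bool).prodCongr
    ((Equiv.refl (Equiv.Perm (ZZ D j))).prodCongr (Equiv.mulRight ρ)))]
  refine Finset.sum_congr rfl fun ω _ => ?_
  obtain ⟨ε, τ, υ⟩ := ω
  congr 1
  show ((D.sel (ZZ D j) τ)⁻¹ * (if ε then D.h j else (D.h j)⁻¹) * D.sel (ZZ D j) (υ * ρ)) • y =
    ((D.sel (ZZ D j) τ)⁻¹ * (if ε then D.h j else (D.h j)⁻¹) * D.sel (ZZ D j) υ) • z
  rw [mul_smul, mul_smul _ (D.sel (ZZ D j) υ)]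
  congr 1
  apply Function.Embedding.ext
  intro i
  rw [Function.Embedding.smul_apply, Function.Embedding.smul_apply]
  have h1 : D.sel (ZZ D j) (υ * ρ) • (y' i : X) = (υ * ρ) (y' i) := D.hsel _ _ _
  have h2 : D.sel (ZZ D j) υ • (z' i : X) = υ (z' i) := D.hsel _ _ _
  have h3 : (υ * ρ) (y' i) = υ (z' i) := by
    show υ (ρ (y' i)) = _
    rw [hρ]
  exact h1.trans ((congrArg Subtype.val h3).trans h2.symm)

/-- Highly transitive actions of countable groups: one symmetric measure of full support for which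
every quotient of the sets of ordered `n`-tuples of different points is Liouville. -/
theorem tuples (G X : Type) [Group G] [MulAction G X] [DecidableEq X] [Countable G] [Countable X]
    [Nonempty X]
    (hX : ∀ (Z : Finset X) (τ : Equiv.Perm Z), ∃ g : G, ∀ x : Z, g • (x : X) = τ x) :
    ∃ μ : PMF G, (∀ g, μ g ≠ 0) ∧ (∀ g, μ g⁻¹ = μ g) ∧
      ∀ (n : ℕ) (Y : Type) [MulAction G Y] (p : (Fin n ↪ X) → Y), Function.Surjective p →
        (∀ (g : G) (y : Fin n ↪ X), p (g • y) = g • p y) →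
        ∀ f : Y → ℝ, (∃ M, ∀ y, |f y| ≤ M) →
        (∀ y, f y = ∑' z, f z * ((μ.map (fun g => g • y)) z).toReal) → ∀ A B, f A = f B := by
  classical
  obtain ⟨h, hh⟩ := exists_surjective_nat G
  obtain ⟨e, he⟩ := exists_surjective_nat X
  have hN : ∀ k : ℕ, ∃ N : ℕ, (1 - (1 / 2 : ℝ) ^ k) ^ N ≤ 1 / (k + 1 : ℝ) := by
    intro k
    have h1 : (1 - (1 / 2 : ℝ) ^ k) < 1 := by
      have : (0 : ℝ) < (1 / 2) ^ k := by positivity
      linarith
    have h2 : (0 : ℝ) < 1 / (k + 1 : ℝ) := by positivity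
    have h0 : (0 : ℝ) ≤ 1 - (1 / 2 : ℝ) ^ k := by
      have : ((1 : ℝ) / 2) ^ k ≤ 1 := pow_le_one₀ (by norm_num) (by norm_num)
      linarith
    obtain ⟨N, hN⟩ := exists_pow_lt_of_lt_one h2 h1
    exact ⟨N, hN.le⟩
  choose N hN using hN
  choose s hs using hX
  let D : Data G X :=
    { h := h
      hh := hh
      e := e
      he := he
      sel := fun Z τ => if τ = 1 then 1 else s Z τ
      hsel := by
        intro Z τ x
        by_cases hτ : τ = 1
        · rw [if_pos hτ, one_smul, hτ]; rfl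
        · rw [if_neg hτ]; exact hs Z τ x
      hsel1 := fun Z => if_pos rfl
      N := N }
  refine ⟨mu D, mu_support D, mu_symm D, fun n Y _ p hp hpe f ⟨M, hM⟩ hf A B => ?_⟩
  obtain ⟨A, rfl⟩ := hp A
  obtain ⟨B, rfl⟩ := hp B
  have hM' : ∀ y, |f (p y)| ≤ M := fun y => hM _
  have hf' : ∀ y, f (p y) = ∑' g, f (p (g • y)) * (mu D g).toReal := fun y => by
    rw [hf (p y), expect_map (mu D) (fun g => g • p y) f M hM]
    exact tsum_congr fun g => by rw [hpe]
  exact const_of' D pts pts_smul hN (fun y => f (p y)) M hM'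
    (fun j y z hy hz => tuple_av D j _ y z hy hz)
    (fun y => harmonic_eq D (fun y => f (p y)) M hM' hf' y) A B

end

end Pool.Agent.H15.HT.Sym
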