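import Pool.Agent.H15.HT.Inst
import Pool.Agent.H15.HT.Sym

set_option autoImplicit false

/-!
Highly transitive actions of countable groups are Liouville on all sets of ordered tuples, for one
symmetric measure of full support; free groups, and free products of arbitrary countable groups
with the free group of rank two, have faithful actions of this kind.
-/

namespace Pool.Agent.H15.HT.Final

/-- The transition probability `p_μ(y, z)`: the sum of `μ g` over the `g` with `g y = z`. -/
noncomputable def transProb {G Y : Type} [Group G] [MulAction G Y] (μ : PMF G) (y z : Y) : ℝ :=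
  ∑' g : {g : G // g • y = z}, (μ g).toReal

/-- The action of `G` on `Y` is `μ`-Liouville: every bounded `μ`-harmonic function is constant. -/
def IsLiouvilleFor {G : Type} [Group G] (μ : PMF G) (Y : Type) [MulAction G Y] : Prop :=
  ∀ f : Y → ℝ, (∃ C : ℝ, ∀ y, |f y| ≤ C) → (∀ y, f y = ∑' z, f z * transProb μ y z) →
    ∀ y z, f y = f z

/-- `G` has a left invariant finitely additive probability measure on all its subsets. -/
def IsAmenable (G : Type) [Group G] : Prop :=
  ∃ m : Set G → ℝ, (∀ A, 0 ≤ m A) ∧ m Set.univ = 1 ∧
    (∀ A B, Disjoint A B → m (A ∪ B) = m A + m B) ∧ ∀ (g : G) A, m ((fun x => g * x) '' A) = m A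

/-- The action of `G` on `X` is highly transitive: for every `n` the group `G` acts transitively
on the ordered `n`-tuples of different points of `X`. -/
def HighlyTransitive (G X : Type) [Group G] [MulAction G X] : Prop :=
  ∀ (n : ℕ) (x y : Fin n ↪ X), ∃ g : G, g • x = y

/-- One symmetric probability measure with `μ g > 0` for all `g` such that for every `n` the
actions on the ordered `n`-tuples of different points and on the `n`-element subsets of `X` are
`μ`-Liouville, and so is every `G`-set which is the image of the set of ordered `n`-tuples under a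
`G`-map. -/
def OneMeasure (G X : Type) [Group G] [MulAction G X] [DecidableEq X] : Prop :=
  ∃ μ : PMF G, (∀ g, μ g ≠ 0) ∧ (∀ g, μ g⁻¹ = μ g) ∧
    ∀ n : ℕ, IsLiouvilleFor μ (Fin n ↪ X) ∧ IsLiouvilleFor μ (Set.powersetCard X n) ∧
      ∀ (Y : Type) [MulAction G Y] (p : (Fin n ↪ X) → Y), Function.Surjective p →
        (∀ (g : G) (x : Fin n ↪ X), p (g • x) = g • p x) → IsLiouvilleFor μ Y

/-- A faithful, highly transitive action on a countable infinite set with one measure as above. -/
def HasAction (G : Type) [Group G] : Prop :=
  ∃ (X : Type) (_ : DecidableEq X) (_ : MulAction G X), Countable X ∧ Infinite X ∧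
    FaithfulSMul G X ∧ HighlyTransitive G X ∧ OneMeasure G X

theorem transProb_eq {G Y : Type} [Group G] [MulAction G Y] (μ : PMF G) (y z : Y) :
    transProb μ y z = ((μ.map (fun g => g • y)) z).toReal := by
  classical
  rw [PMF.map_apply, ENNReal.tsum_toReal_eq]
  · unfold transProb
    rw [← tsum_subtype_eq_of_support_subset (s := {g : G | g • y = z})]
    · refine tsum_congr fun g => ?_
      rw [if_pos g.2.symm]
    · intro g hg
      by_contra h
      apply hg
      have h2 : ¬ z = g • y := fun e => h e.symm
      simp [h2]
  · intro g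
    split_ifs
    · exact μ.apply_ne_top g
    · exact ENNReal.zero_ne_top

theorem perm_of_ht {G X : Type} [Group G] [MulAction G X] (h : HighlyTransitive G X)
    (Z : Finset X) (τ : Equiv.Perm Z) : ∃ g : G, ∀ x : Z, g • (x : X) = τ x := by
  obtain ⟨g, hg⟩ := h Z.card
    (Z.equivFin.symm.toEmbedding.trans (Function.Embedding.subtype _))
    ((Z.equivFin.symm.trans τ).toEmbedding.trans (Function.Embedding.subtype _))
  refine ⟨g, fun x => ?_⟩
  have h1 := DFunLike.congr_fun hg (Z.equivFin x)
  rw [Function.Embedding.smul_apply] at h1
  simpa using h1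

theorem ht_of_perm {G X : Type} [Group G] [MulAction G X]
    (h : ∀ (Z : Finset X) (τ : Equiv.Perm Z), ∃ g : G, ∀ x : Z, g • (x : X) = τ x) :
    HighlyTransitive G X := by
  classical
  intro n x y
  let Z : Finset X := Finset.univ.map x ∪ Finset.univ.map y
  let x' : Fin n → Z := fun i => ⟨x i, Finset.mem_union_left _
    (Finset.mem_map_of_mem x (Finset.mem_univ i))⟩
  let y' : Fin n → Z := fun i => ⟨y i, Finset.mem_union_right _
    (Finset.mem_map_of_mem y (Finset.mem_univ i))⟩
  have hx' : Function.Injective x' := fun i i' h => x.injective (congrArg Subtype.val h)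
  have hy' : Function.Injective y' := fun i i' h => y.injective (congrArg Subtype.val h)
  obtain ⟨ρ, hρ⟩ := Equiv.Perm.exists_extending_pair x' y' hx' hy'
  obtain ⟨g, hg⟩ := h Z ρ
  refine ⟨g, Function.Embedding.ext fun i => ?_⟩
  rw [Function.Embedding.smul_apply]
  exact (hg (x' i)).trans (congrArg Subtype.val (hρ i))

theorem oneMeasure (G X : Type) [Group G] [MulAction G X] [DecidableEq X] [Countable G]
    [Countable X] [Nonempty X]
    (h : ∀ (Z : Finset X) (τ : Equiv.Perm Z), ∃ g : G, ∀ x : Z, g • (x : X) = τ x) :
    OneMeasure G X := by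
  obtain ⟨μ, h0, h1, h2⟩ := Pool.Agent.H15.HT.Sym.tuples G X h
  have key : ∀ (n : ℕ) (Y : Type) [MulAction G Y] (p : (Fin n ↪ X) → Y),
      Function.Surjective p → (∀ (g : G) (x : Fin n ↪ X), p (g • x) = g • p x) →
      IsLiouvilleFor μ Y := by
    intro n Y _ p hp hpe f hf hharm
    refine h2 n Y p hp hpe f hf (fun y => ?_)
    rw [hharm y]
    exact tsum_congr fun z => by rw [transProb_eq]
  refine ⟨μ, h0, h1, fun n => ⟨key n _ id Function.surjective_id (fun _ _ => rfl),
    key n _ (Set.powersetCard.mulActionHom_of_embedding G X n)
      (Set.powersetCard.mulActionHom_of_embedding_surjective G X)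
      (fun g x => map_smul _ g x), key n⟩⟩

theorem hasAction {G : Type} [Group G] [Countable G] [Infinite G]
    (D : Pool.Agent.H15.HT.Setting G) : HasAction G := by
  classical
  obtain ⟨X, act, h1, h2, h3, h4⟩ := Pool.Agent.H15.HT.exists_set D
  exact ⟨X, inferInstance, act, h1, h2, h3, ht_of_perm h4, oneMeasure G X h4⟩

theorem not_amenable {G : Type} [Group G] (q : G →* FreeGroup Bool) (g : Bool → G)
    (hg : ∀ i, q (g i) = FreeGroup.of i) : ¬ IsAmenable G := by
  rintro ⟨m, h0, h1, hadd, hinv⟩
  refine Pool.Agent.Helper463.BC.paradox q g hg m h1 h0 hadd (fun i S => ?_)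
  rw [hinv, sub_self, abs_zero]
  norm_num

/-- (1) For every highly transitive action of a countable group `G` on a countable nonempty set `X`
there is one symmetric probability measure of full support on `G` for which the actions on the
ordered `n`-tuples of different points and on the `n`-element subsets of `X` are Liouville for all
`n`.  (2) The free group of rank two is not amenable and has a faithful action of this kind.
(3) For every countable group `H` the free product of `H` and the free group of rank two is
countable, finitely generated if `H` is, not amenable, and has a faithful action of this kind. -/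
theorem result :
    (∀ (G X : Type) [Group G] [MulAction G X] [DecidableEq X] [Countable G] [Countable X]
      [Nonempty X], HighlyTransitive G X → OneMeasure G X) ∧
    (¬ IsAmenable (FreeGroup Bool) ∧ HasAction (FreeGroup Bool)) ∧
    ∀ (H : Type) [Group H] [Countable H],
      Countable (Monoid.Coprod H (FreeGroup Bool)) ∧
      (Group.FG H → Group.FG (Monoid.Coprod H (FreeGroup Bool))) ∧
      ¬ IsAmenable (Monoid.Coprod H (FreeGroup Bool)) ∧
      HasAction (Monoid.Coprod H (FreeGroup Bool)) := by
  refine ⟨fun G X _ _ _ _ _ _ h => oneMeasure G X (perm_of_ht h),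
    ⟨not_amenable (MonoidHom.id _) FreeGroup.of (fun _ => rfl),
      hasAction Pool.Agent.H15.HT.setF⟩, fun H _ _ => ?_⟩
  have hc := Pool.Agent.H15.HT.coprod_countable H
  have hi : Infinite (Monoid.Coprod H (FreeGroup Bool)) :=
    Infinite.of_injective _ (Monoid.Coprod.inr_injective (M := H) (N := FreeGroup Bool))
  exact ⟨hc, Pool.Agent.H15.HT.coprod_fg H,
    not_amenable Monoid.Coprod.snd (fun i => Monoid.Coprod.inr (FreeGroup.of i)) (fun _ => rfl),
    hasAction (Pool.Agent.H15.HT.setC H)⟩

end Pool.Agent.H15.HT.Final
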