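import Pool.Agent.H15.HT.Grp

/-!
# A faithful highly transitive action of a group with a free generator
-/

set_option autoImplicit false

namespace Pool.Agent.H15.HT

noncomputable section

/-- a group with a height and a free generator `b` -/
structure Setting (G : Type) [Group G] where
  a : G
  b : G
  φ : G →* Multiplicative ℤ
  φa : φ a = Multiplicative.ofAdd 1
  φb : φ b = 1
  univ : ∀ κ : Equiv.Perm G, ∃ σ : G →* Equiv.Perm G, σ a = LL a ∧ σ b = LL b * κ ∧
    ∃ S : Set G, Subgroup.closure S = ⊤ ∧ ∀ s ∈ S, s ≠ b → σ s = LL s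

variable {G : Type} [Group G] (D : Setting G)

/-- the height -/
def Setting.ht (x : G) : ℤ := Multiplicative.toAdd (D.φ x)

theorem ht_mul (x y : G) : D.ht (x * y) = D.ht x + D.ht y := by
  unfold Setting.ht
  rw [map_mul, toAdd_mul]

theorem ht_inv (x : G) : D.ht x⁻¹ = - D.ht x := by
  unfold Setting.ht
  rw [map_inv, toAdd_inv]

theorem ht_b : D.ht D.b = 0 := by
  unfold Setting.ht
  rw [D.φb, toAdd_one]

theorem ht_a (n : ℤ) : D.ht (D.a ^ n) = n := by
  unfold Setting.ht
  rw [map_zpow, D.φa, toAdd_zpow, toAdd_ofAdd, smul_eq_mul, mul_one]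

/-- the centres -/
def cen (i : ℕ) : ℤ := 3 * 2 ^ i

theorem log_cen (i j : ℕ) (h : j < 2 ^ i) (t : ℤ) (ht : |t| ≤ j) :
    Nat.log 2 (cen i + t).toNat = i + 1 := by
  have h1 := abs_le.mp ht
  have h2 : (j : ℤ) < 2 ^ i := by exact_mod_cast h
  have h3 : (0 : ℤ) ≤ cen i + t := by unfold cen; linarith [h1.1]
  have h4 : ((cen i + t).toNat : ℤ) = cen i + t := Int.toNat_of_nonneg h3
  rw [Nat.log_eq_iff (Or.inl (Nat.succ_ne_zero _))]
  constructor
  · have : ((2 ^ (i + 1) : ℕ) : ℤ) ≤ ((cen i + t).toNat : ℤ) := by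
      rw [h4]
      push_cast
      unfold cen
      rw [pow_succ]
      linarith [h1.1]
    exact_mod_cast this
  · have : ((cen i + t).toNat : ℤ) < ((2 ^ (i + 1 + 1) : ℕ) : ℤ) := by
      rw [h4]
      push_cast
      unfold cen
      rw [pow_succ, pow_succ]
      linarith [h1.2]
    exact_mod_cast this

/-- the index of a point -/
def Setting.lg (x : G) : ℕ := Nat.log 2 (D.ht x).toNat

theorem lg_of (i j : ℕ) (h : j < 2 ^ i) (x : G) (t : ℤ) (hx : D.ht x = cen i + t)
    (ht : |t| ≤ j) : D.lg x = i + 1 := by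
  unfold Setting.lg
  rw [hx]
  exact log_cen i j h t ht

/-- the requirements -/
abbrev Req (G : Type) : Type := Σ Z : Finset G, Equiv.Perm Z

/-- one block -/
theorem exists_kap (code : Req G → ℕ) (hcode : Function.Injective code)
    (hbd : ∀ (R : Req G) (z : R.1), |D.ht (z : G)| ≤ code R) (j : ℕ) :
    ∃ κ : Equiv.Perm G, (∀ x, D.lg x / 3 ≠ j + 1 → κ x = x) ∧
      ∀ R : Req G, code R = j → ∀ z : R.1,
        κ (D.a ^ cen (3 * j + 2) * (z : G)) =
          D.b⁻¹ * D.a ^ (cen (3 * j + 4) - cen (3 * j + 3)) * D.b * D.a ^ cen (3 * j + 3) *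
            (R.2 z : G) ∧
        κ (D.a ^ cen (3 * j + 3) * (z : G)) = D.a ^ cen (3 * j + 3) * (z : G) := by
  classical
  by_cases h : ∃ R : Req G, code R = j
  · obtain ⟨⟨Z, τ⟩, hR⟩ := h
    have hj : ∀ i, 3 * j ≤ i → j < 2 ^ i := fun i hi => by
      have h1 : j < 2 ^ j := Nat.lt_two_pow_self
      exact h1.trans_le (Nat.pow_le_pow_right (by norm_num) (by omega))
    have hb : ∀ z : Z, |D.ht (z : G)| ≤ j := fun z => by
      have := hbd ⟨Z, τ⟩ z
      rwa [hR] at this
    let f : Z → G := fun z => D.a ^ cen (3 * j + 2) * (z : G)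
    let g : Z → G := fun z => D.b⁻¹ * D.a ^ (cen (3 * j + 4) - cen (3 * j + 3)) * D.b *
      D.a ^ cen (3 * j + 3) * (τ z : G)
    have hf : ∀ z, D.lg (f z) = 3 * j + 2 + 1 := fun z => by
      refine lg_of D _ j (hj _ (by omega)) _ (D.ht (z : G)) ?_ (hb z)
      show D.ht (D.a ^ cen (3 * j + 2) * (z : G)) = _
      rw [ht_mul, ht_a]
    have hg : ∀ z, D.lg (g z) = 3 * j + 4 + 1 := fun z => by
      refine lg_of D _ j (hj _ (by omega)) _ (D.ht (τ z : G)) ?_ (hb (τ z))
      show D.ht (D.b⁻¹ * D.a ^ (cen (3 * j + 4) - cen (3 * j + 3)) * D.b *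
        D.a ^ cen (3 * j + 3) * (τ z : G)) = _
      rw [ht_mul, ht_mul, ht_mul, ht_mul, ht_a, ht_a, ht_inv, ht_b]
      ring
    let S : Finset G := Finset.univ.image f ∪ Finset.univ.image g
    have hS : ∀ x ∈ S, D.lg x = 3 * j + 2 + 1 ∨ D.lg x = 3 * j + 4 + 1 := by
      intro x hx
      rcases Finset.mem_union.1 hx with hx | hx
      · obtain ⟨z, -, rfl⟩ := Finset.mem_image.1 hx
        exact Or.inl (hf z)
      · obtain ⟨z, -, rfl⟩ := Finset.mem_image.1 hx
        exact Or.inr (hg z)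
    let f' : Z → S := fun z => ⟨f z, Finset.mem_union_left _
      (Finset.mem_image_of_mem _ (Finset.mem_univ z))⟩
    let g' : Z → S := fun z => ⟨g z, Finset.mem_union_right _
      (Finset.mem_image_of_mem _ (Finset.mem_univ z))⟩
    have hf' : Function.Injective f' := by
      intro z z' h
      have h1 : f z = f z' := congrArg Subtype.val h
      exact Subtype.ext (mul_left_cancel h1)
    have hg' : Function.Injective g' := by
      intro z z' h
      have h1 : g z = g z' := congrArg Subtype.val h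
      exact τ.injective (Subtype.ext (mul_left_cancel h1))
    obtain ⟨ρ, hρ⟩ := Equiv.Perm.exists_extending_pair f' g' hf' hg'
    refine ⟨Equiv.Perm.ofSubtype (p := fun x => x ∈ S) ρ, ?_, ?_⟩
    · intro x hx
      refine Equiv.Perm.ofSubtype_apply_of_not_mem ρ ?_
      intro h
      apply hx
      rcases hS x h with h | h <;> omega
    · intro R' hR' z
      obtain rfl : R' = ⟨Z, τ⟩ := hcode (hR'.trans hR.symm)
      refine ⟨?_, ?_⟩
      · have h1 := Equiv.Perm.ofSubtype_apply_of_mem (p := fun x => x ∈ S) ρ (f' z).2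
        have h2 : ρ (f' z) = g' z := hρ z
        have h3 : (⟨(f' z : G), (f' z).2⟩ : S) = f' z := rfl
        rw [h3, h2] at h1
        exact h1
      · refine Equiv.Perm.ofSubtype_apply_of_not_mem ρ ?_
        intro h
        have h1 : D.lg (D.a ^ cen (3 * j + 3) * (z : G)) = 3 * j + 3 + 1 := by
          refine lg_of D _ j (hj _ (by omega)) _ (D.ht (z : G)) ?_ (hb z)
          rw [ht_mul, ht_a]
        rcases hS _ h with h | h <;> omega
  · exact ⟨1, fun x _ => rfl, fun R hR => (h ⟨R, hR⟩).elim⟩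

/-- gluing the blocks -/
theorem exists_glue {X : Type} (idx : X → ℕ) (K : ℕ → Equiv.Perm X)
    (hK : ∀ i x, idx x ≠ i → K i x = x) :
    ∃ κ : Equiv.Perm X, ∀ x, κ x = K (idx x) x := by
  have h1 : ∀ i x, idx (K i x) = idx x := by
    intro i x
    by_cases h : idx x = i
    · by_contra h2
      have h3 : K i (K i x) = K i x := hK i _ (fun h4 => h2 (h4.trans h.symm))
      have h4 : K i x = x := (K i).injective h3
      exact h2 (by rw [h4])
    · rw [hK i x h]
  have h2 : ∀ i x, idx ((K i)⁻¹ x) = idx x := by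
    intro i x
    have h3 := h1 i ((K i)⁻¹ x)
    rw [← h3]
    congr 1
    exact (K i).apply_symm_apply x
  refine ⟨⟨fun x => K (idx x) x, fun x => (K (idx x))⁻¹ x, fun x => ?_, fun x => ?_⟩,
    fun x => rfl⟩
  · show (K (idx (K (idx x) x)))⁻¹ (K (idx x) x) = x
    rw [h1]
    exact (K (idx x)).symm_apply_apply x
  · show K (idx ((K (idx x))⁻¹ x)) ((K (idx x))⁻¹ x) = x
    rw [h2]
    exact (K (idx x)).apply_symm_apply x

include D in
/-- the action -/
theorem exists_action [Countable G] : ∃ σ : G →* Equiv.Perm G, Function.Injective σ ∧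
    ∀ (Z : Finset G) (τ : Equiv.Perm Z), ∃ g : G, ∀ x : Z, σ g (x : G) = τ x := by
  classical
  obtain ⟨e, he⟩ := exists_injective_nat (Req G)
  let r : Req G → ℕ := fun R => R.1.sup fun z => (D.ht z).natAbs
  let code : Req G → ℕ := fun R => Nat.pair (e R) (r R)
  have hcode : Function.Injective code := by
    intro R R' h
    exact he (Nat.pair_eq_pair.1 h).1
  have hbd : ∀ (R : Req G) (z : R.1), |D.ht (z : G)| ≤ code R := by
    intro R z
    have h1 : (D.ht (z : G)).natAbs ≤ r R :=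
      Finset.le_sup (f := fun z => (D.ht z).natAbs) z.2
    have h2 : r R ≤ code R := Nat.right_le_pair _ _
    rw [Int.abs_eq_natAbs]
    exact_mod_cast h1.trans h2
  choose kap hk1 hk2 using exists_kap D code hcode hbd
  obtain ⟨κ, hκ⟩ := exists_glue (fun x => D.lg x / 3) (fun i => if i = 0 then 1 else kap (i - 1))
    (by
      intro i x hx
      by_cases hi : i = 0
      · simp only [if_pos hi]; rfl
      · simp only [if_neg hi]
        refine hk1 (i - 1) x ?_
        have : i - 1 + 1 = i := by omega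
        rw [this]
        exact hx)
  have hκj : ∀ j x, D.lg x / 3 = j + 1 → κ x = kap j x := by
    intro j x hx
    rw [hκ x, hx, if_neg (Nat.succ_ne_zero j)]
    rfl
  have hκ0 : ∀ x, D.ht x ≤ 0 → κ x = x := by
    intro x hx
    have h1 : D.lg x / 3 = 0 := by
      unfold Setting.lg
      rw [Int.toNat_of_nonpos hx]
      simp
    rw [hκ x, h1, if_pos rfl]
    rfl
  obtain ⟨σ, hσa, hσb, S, hS, hσS⟩ := D.univ κ
  have hσan : ∀ n : ℤ, σ (D.a ^ n) = LL (D.a ^ n) := fun n => by
    rw [map_zpow, hσa, ← map_zpow]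
  have hσb' : ∀ x, σ D.b x = D.b * κ x := fun x => by
    rw [hσb]; rfl
  -- agreement with the left translation at points of very small height
  have hP : ∀ w : G, ∃ N : ℤ, ∀ x, D.ht x ≤ N → σ w x = w * x := by
    intro w
    have hw : w ∈ Subgroup.closure S := by rw [hS]; exact Subgroup.mem_top w
    induction hw using Subgroup.closure_induction with
    | mem s hs =>
      by_cases h : s = D.b
      · refine ⟨0, fun x hx => ?_⟩
        rw [h, hσb', hκ0 x hx]
      · exact ⟨0, fun x _ => by rw [hσS s hs h]; rfl⟩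
    | one => exact ⟨0, fun x _ => by rw [map_one, one_mul]; rfl⟩
    | inv x _ hx =>
      obtain ⟨N, hN⟩ := hx
      refine ⟨N + D.ht x, fun y hy => ?_⟩
      have h1 : σ x (x⁻¹ * y) = y := by
        rw [hN _ (by rw [ht_mul, ht_inv]; linarith), mul_inv_cancel_left]
      rw [map_inv, Equiv.Perm.inv_eq_iff_eq]
      exact h1.symm
    | mul x y _ _ hx hy =>
      obtain ⟨N, hN⟩ := hx
      obtain ⟨N', hN'⟩ := hy
      refine ⟨min N' (N - D.ht y), fun z hz => ?_⟩
      rw [map_mul, Equiv.Perm.mul_apply, hN' z (hz.trans (min_le_left _ _)),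
        hN _ (by rw [ht_mul]; linarith [hz.trans (min_le_right _ _)]), mul_assoc]
  refine ⟨σ, ?_, ?_⟩
  · rw [injective_iff_map_eq_one]
    intro w hw
    obtain ⟨N, hN⟩ := hP w
    have h1 := hN (D.a ^ N) (ht_a D N).le
    rw [hw] at h1
    have h2 : D.a ^ N = w * D.a ^ N := h1
    exact (mul_eq_right.mp h2.symm)
  · intro Z τ
    set j := code ⟨Z, τ⟩ with hj
    have hjj : ∀ i, 3 * j ≤ i → j < 2 ^ i := fun i hi => by
      have h1 : j < 2 ^ j := Nat.lt_two_pow_self
      exact h1.trans_le (Nat.pow_le_pow_right (by norm_num) (by omega))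
    have hb : ∀ z : Z, |D.ht (z : G)| ≤ j := fun z => hbd ⟨Z, τ⟩ z
    refine ⟨(D.a ^ cen (3 * j + 3))⁻¹ * D.b⁻¹ * (D.a ^ (cen (3 * j + 4) - cen (3 * j + 3)))⁻¹ *
      D.b * D.a ^ cen (3 * j + 2), fun z => ?_⟩
    rw [map_mul, map_mul, map_mul, map_mul, map_inv, map_inv, map_inv, hσan, hσan, hσan]
    simp only [Equiv.Perm.mul_apply]
    have h1 : D.lg (D.a ^ cen (3 * j + 2) * (z : G)) = 3 * j + 2 + 1 := by
      refine lg_of D _ j (hjj _ (by omega)) _ (D.ht (z : G)) ?_ (hb z)
      rw [ht_mul, ht_a]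
    have h2 : D.lg (D.a ^ cen (3 * j + 3) * (τ z : G)) = 3 * j + 3 + 1 := by
      refine lg_of D _ j (hjj _ (by omega)) _ (D.ht (τ z : G)) ?_ (hb (τ z))
      rw [ht_mul, ht_a]
    have h3 : κ (D.a ^ cen (3 * j + 2) * (z : G)) =
        D.b⁻¹ * D.a ^ (cen (3 * j + 4) - cen (3 * j + 3)) * D.b * D.a ^ cen (3 * j + 3) *
          (τ z : G) := by
      rw [hκj j _ (by omega)]
      exact (hk2 j ⟨Z, τ⟩ rfl z).1
    have h4 : κ (D.a ^ cen (3 * j + 3) * (τ z : G)) = D.a ^ cen (3 * j + 3) * (τ z : G) := by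
      rw [hκj j _ (by omega)]
      exact (hk2 j ⟨Z, τ⟩ rfl (τ z)).2
    have h5 : LL (D.a ^ cen (3 * j + 2)) (z : G) = D.a ^ cen (3 * j + 2) * (z : G) := rfl
    rw [h5, hσb', h3]
    have h6 : (LL (D.a ^ (cen (3 * j + 4) - cen (3 * j + 3))))⁻¹
        (D.b * (D.b⁻¹ * D.a ^ (cen (3 * j + 4) - cen (3 * j + 3)) * D.b *
          D.a ^ cen (3 * j + 3) * (τ z : G))) = D.b * (D.a ^ cen (3 * j + 3) * (τ z : G)) := by
      rw [Equiv.Perm.inv_eq_iff_eq, LL_apply]
      group
    rw [h6]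
    have h7 : (σ D.b)⁻¹ (D.b * (D.a ^ cen (3 * j + 3) * (τ z : G))) =
        D.a ^ cen (3 * j + 3) * (τ z : G) := by
      rw [Equiv.Perm.inv_eq_iff_eq, hσb', h4]
    rw [h7, Equiv.Perm.inv_eq_iff_eq, LL_apply]

end

end Pool.Agent.H15.HT
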