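import Pool.Agent.H15.HT.Tuple
import Pool.Graph.R_seed8.Helper463.BCPara

/-!
# The permutations of a group which agree with a left translation off a finite set
-/

set_option autoImplicit false

namespace Pool.Agent.H15.HT

open scoped Pointwise

noncomputable section

variable (H : Type) [Group H]

/-- the permutations of `H` which agree with a left translation off a finite set -/
def AT : Subgroup (Equiv.Perm H) where
  carrier := {σ | ∃ w : H, {x | σ x ≠ w * x}.Finite}
  mul_mem' := by
    rintro σ σ' ⟨w, hw⟩ ⟨w', hw'⟩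
    refine ⟨w * w', (hw'.union (hw.preimage (f := σ') σ'.injective.injOn)).subset ?_⟩
    intro x hx
    by_contra h
    simp only [Set.mem_union, Set.mem_ofPred_eq, Set.mem_preimage, not_or, not_not] at h
    apply hx
    rw [Equiv.Perm.mul_apply, h.2, h.1, mul_assoc]
  one_mem' := ⟨1, by simp⟩
  inv_mem' := by
    rintro σ ⟨w, hw⟩
    refine ⟨w⁻¹, (hw.image σ).subset ?_⟩
    intro x hx
    refine ⟨σ⁻¹ x, ?_, σ.apply_symm_apply x⟩
    intro h
    apply hx
    have h2 : σ (σ⁻¹ x) = x := σ.apply_symm_apply x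
    rw [h2] at h
    rw [eq_inv_mul_iff_mul_eq]
    exact h.symm

variable {H}

theorem mem_AT {σ : Equiv.Perm H} : σ ∈ AT H ↔ ∃ w : H, {x | σ x ≠ w * x}.Finite := Iff.rfl

theorem uniq [Infinite H] {σ : Equiv.Perm H} {w w' : H} (h : {x | σ x ≠ w * x}.Finite)
    (h' : {x | σ x ≠ w' * x}.Finite) : w = w' := by
  obtain ⟨x, hx⟩ := (h.union h').infinite_compl.nonempty
  simp only [Set.mem_compl_iff, Set.mem_union, Set.mem_ofPred_eq, not_or, not_not] at hx
  exact mul_right_cancel (hx.1.symm.trans hx.2)

/-- the translation part -/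
def qq [Infinite H] : AT H →* H where
  toFun σ := σ.2.choose
  map_one' := uniq (σ := 1) (1 : AT H).2.choose_spec (by simp)
  map_mul' σ σ' := by
    refine uniq (σ := (σ * σ' : AT H)) (σ * σ').2.choose_spec ?_
    refine ((σ'.2.choose_spec).union ((σ.2.choose_spec).preimage (f := σ'.1)
      σ'.1.injective.injOn)).subset ?_
    intro x hx
    by_contra h
    simp only [Set.mem_union, Set.mem_ofPred_eq, Set.mem_preimage, not_or, not_not] at h
    apply hx
    rw [Subgroup.coe_mul, Equiv.Perm.mul_apply, h.2, h.1, mul_assoc]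

theorem qq_spec [Infinite H] (σ : AT H) : {x | σ.1 x ≠ qq σ * x}.Finite := σ.2.choose_spec

/-- left translations -/
def LL : H →* Equiv.Perm H := MulAction.toPermHom H H

theorem LL_apply (w x : H) : LL w x = w * x := rfl

theorem LL_mem (w : H) : LL w ∈ AT H := ⟨w, by simp [LL_apply]⟩

/-- left translations -/
def ιι : H →* AT H where
  toFun w := ⟨LL w, LL_mem w⟩
  map_one' := Subtype.ext (map_one LL)
  map_mul' a b := Subtype.ext (map_mul LL a b)

theorem qq_ιι [Infinite H] (w : H) : qq (ιι w) = w :=
  uniq (σ := LL w) (⟨LL w, LL_mem w⟩ : AT H).2.choose_spec (by simp [LL_apply])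

theorem fin_mem {σ : Equiv.Perm H} (h : {x | σ x ≠ x}.Finite) : σ ∈ AT H :=
  ⟨1, by simpa using h⟩

/-- high transitivity -/
theorem AT_ht (Z : Finset H) (τ : Equiv.Perm Z) : ∃ g : AT H, ∀ x : Z, g • (x : H) = τ x := by
  classical
  refine ⟨⟨Equiv.Perm.ofSubtype (p := fun x => x ∈ Z) τ, fin_mem ?_⟩, fun x => ?_⟩
  · refine Z.finite_toSet.subset ?_
    intro x hx
    by_contra h
    exact hx (Equiv.Perm.ofSubtype_apply_of_not_mem τ h)
  · show Equiv.Perm.ofSubtype (p := fun x => x ∈ Z) τ (x : H) = τ x
    exact Equiv.Perm.ofSubtype_apply_coe τ x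

theorem swap_fin [DecidableEq H] (x y : H) : {z | Equiv.swap x y z ≠ z}.Finite := by
  refine (Set.toFinite {x, y}).subset ?_
  intro z hz
  by_contra h
  simp only [Set.mem_insert_iff, Set.mem_singleton_iff, not_or] at h
  exact hz (Equiv.swap_apply_of_ne_of_ne h.1 h.2)

/-- finitely many finitary permutations generate a finite group -/
theorem ker_locFin [Infinite H] (S : Finset (AT H)) (hS : ∀ s ∈ S, qq s = 1) :
    ((Subgroup.closure (S : Set (AT H)) : Subgroup (AT H)) : Set (AT H)).Finite := by
  classical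
  have hfin : ∀ s ∈ S, {x | s.1 x ≠ x}.Finite := by
    intro s hs
    have h1 := qq_spec s
    rw [hS s hs] at h1
    simpa using h1
  have hF : (⋃ s ∈ S, {x | s.1 x ≠ x}).Finite := by
    exact Set.Finite.biUnion S.finite_toSet hfin
  set F : Finset H := hF.toFinset with hFd
  have hmem : ∀ s ∈ S, ∀ x, s.1 x ≠ x → x ∈ F := by
    intro s hs x hx
    rw [hFd, Set.Finite.mem_toFinset]
    exact Set.mem_biUnion hs hx
  let R : Subgroup (Equiv.Perm H) := (Equiv.Perm.ofSubtype (p := fun x => x ∈ F)).range
  have hR : (R : Set (Equiv.Perm H)).Finite := by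
    rw [MonoidHom.coe_range]
    exact Set.finite_range _
  have hle : Subgroup.closure (S : Set (AT H)) ≤ R.comap (AT H).subtype := by
    rw [Subgroup.closure_le]
    intro s hs
    have h1 : ∀ x, s.1 x ≠ x → x ∈ F := hmem s hs
    have h2 : ∀ x, s.1 x ∈ F ↔ x ∈ F := by
      intro x
      by_cases hx : s.1 x = x
      · rw [hx]
      · exact ⟨fun _ => h1 _ hx, fun _ => h1 _ (fun h => hx (s.1.injective h))⟩
    refine ⟨s.1.subtypePerm h2, ?_⟩
    exact Equiv.Perm.ofSubtype_subtypePerm h2 h1
  have hfin2 : ((R.comap (AT H).subtype : Subgroup (AT H)) : Set (AT H)).Finite := by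
    have h3 : ((R.comap (AT H).subtype : Subgroup (AT H)) : Set (AT H)) =
        Subtype.val ⁻¹' (R : Set (Equiv.Perm H)) := rfl
    rw [h3]
    exact hR.preimage Subtype.val_injective.injOn
  exact hfin2.subset hle

/-- countability -/
theorem AT_countable [Countable H] : Countable (AT H) := by
  classical
  have h1 : (⋃ F : Finset H, Set.range
      (Equiv.Perm.ofSubtype (p := fun x => x ∈ F) : Equiv.Perm {x // x ∈ F} →* Equiv.Perm H)
      : Set (Equiv.Perm H)).Countable :=
    Set.countable_iUnion fun F => (Set.finite_range _).countable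
  have h2 : (Set.image2 (fun (w : H) (κ : Equiv.Perm H) => LL w * κ) Set.univ
      (⋃ F : Finset H, Set.range (Equiv.Perm.ofSubtype (p := fun x => x ∈ F) :
        Equiv.Perm {x // x ∈ F} →* Equiv.Perm H))).Countable :=
    Set.Countable.image2 Set.countable_univ h1 _
  refine (h2.mono ?_).to_subtype
  rintro σ ⟨w, hw⟩
  refine ⟨w, Set.mem_univ _, (LL w)⁻¹ * σ, ?_, by simp⟩
  have h3 : ∀ x, ((LL w)⁻¹ * σ) x ≠ x → x ∈ hw.toFinset := by
    intro x hx
    rw [Set.Finite.mem_toFinset]
    intro h
    apply hx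
    have h4 : σ x = w * x := h
    show (LL w)⁻¹ (σ x) = x
    rw [h4]
    exact (LL w).symm_apply_apply x
  have h5 : ∀ x, ((LL w)⁻¹ * σ) x ∈ hw.toFinset ↔ x ∈ hw.toFinset := by
    intro x
    by_cases hx : ((LL w)⁻¹ * σ) x = x
    · rw [hx]
    · exact ⟨fun _ => h3 _ hx, fun _ => h3 _ (fun h => hx (((LL w)⁻¹ * σ).injective h))⟩
  refine Set.mem_iUnion.2 ⟨hw.toFinset, ((LL w)⁻¹ * σ).subtypePerm h5, ?_⟩
  exact Equiv.Perm.ofSubtype_subtypePerm h5 h3

/-- finite generation -/
theorem AT_fg (hH : Group.FG H) : Group.FG (AT H) := by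
  classical
  obtain ⟨S, hS⟩ := Group.fg_def.1 hH
  set gens : Set (Equiv.Perm H) := (fun s => LL s) '' (S : Set H) ∪
    (fun s => Equiv.swap 1 s) '' (S : Set H) with hgens
  have hgf : gens.Finite := (S.finite_toSet.image _).union (S.finite_toSet.image _)
  have hcl : Subgroup.closure gens = AT H := by
    apply le_antisymm
    · rw [Subgroup.closure_le]
      rintro σ (⟨s, -, rfl⟩ | ⟨s, -, rfl⟩)
      · exact LL_mem _
      · exact fin_mem (swap_fin _ _)
    · have hof : ∀ s ∈ S, LL s ∈ Subgroup.closure gens := fun s hs =>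
        Subgroup.subset_closure (Or.inl ⟨s, hs, rfl⟩)
      have hsw : ∀ s ∈ S, Equiv.swap 1 s ∈ Subgroup.closure gens := fun s hs =>
        Subgroup.subset_closure (Or.inr ⟨s, hs, rfl⟩)
      have hL : ∀ w : H, LL w ∈ Subgroup.closure gens := by
        have : (⊤ : Subgroup H) ≤ (Subgroup.closure gens).comap LL := by
          rw [← hS, Subgroup.closure_le]
          exact hof
        exact fun w => this (Subgroup.mem_top w)
      have hs1 : ∀ (g : H), ∀ s ∈ S, Equiv.swap g (g * s) ∈ Subgroup.closure gens := by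
        intro g s hs
        have h1 : LL g * Equiv.swap 1 s * (LL g)⁻¹ = Equiv.swap g (g * s) := by
          have := Equiv.swap_apply_apply (LL g) 1 s
          rw [LL_apply, LL_apply, mul_one] at this
          exact this.symm
        rw [← h1]
        exact Subgroup.mul_mem _ (Subgroup.mul_mem _ (hL g) (hsw s hs))
          (Subgroup.inv_mem _ (hL g))
      have hs : ∀ (w g : H), Equiv.swap g (g * w) ∈ Subgroup.closure gens := by
        intro w
        have hw : w ∈ Subgroup.closure (S : Set H) := by rw [hS]; exact Subgroup.mem_top w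
        induction hw using Subgroup.closure_induction with
        | mem s hs => exact fun g => hs1 g s hs
        | one => intro g; rw [mul_one, Equiv.swap_self]; exact Subgroup.one_mem _
        | inv x _ hx =>
          intro g
          have := hx (g * x⁻¹)
          rw [inv_mul_cancel_right, Equiv.swap_comm] at this
          exact this
        | mul a b _ _ ha hb =>
          intro g
          rw [← mul_assoc]
          exact SubmonoidClass.swap_mem_trans _ (ha g) (hb (g * a))
      rintro σ ⟨w, hw⟩
      have h1 : (LL w)⁻¹ * σ ∈ Subgroup.closure {σ : Equiv.Perm H | σ.IsSwap} := by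
        rw [mem_closure_isSwap']
        refine hw.subset ?_
        intro x hx h
        apply hx
        have h1 : σ x = w * x := h
        show (LL w)⁻¹ (σ x) = x
        rw [h1]
        exact (LL w).symm_apply_apply x
      have h2 : Subgroup.closure {σ : Equiv.Perm H | σ.IsSwap} ≤ Subgroup.closure gens := by
        rw [Subgroup.closure_le]
        rintro σ ⟨x, y, -, rfl⟩
        have := hs (x⁻¹ * y) x
        rwa [mul_inv_cancel_left] at this
      have h3 := Subgroup.mul_mem _ (hL w) (h2 h1)
      rwa [mul_inv_cancel_left] at h3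
  rw [Group.fg_iff_subgroup_fg, Subgroup.fg_iff]
  exact ⟨gens, hcl, hgf⟩

end

end Pool.Agent.H15.HT
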