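import Pool.Agent.H15.HT.Free

/-!
# Free products with the free group of rank two
-/

set_option autoImplicit false

namespace Pool.Agent.H15.HT

noncomputable section

/-- the height on the free group -/
def phiF : FreeGroup Bool →* Multiplicative ℤ :=
  FreeGroup.lift fun i => if i then 1 else Multiplicative.ofAdd 1

/-- the free group of rank two -/
def setF : Setting (FreeGroup Bool) where
  a := FreeGroup.of false
  b := FreeGroup.of true
  φ := phiF
  φa := by simp [phiF]
  φb := by simp [phiF]
  univ κ := by
    refine ⟨FreeGroup.lift fun i => if i then LL (FreeGroup.of true) * κ else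
      LL (FreeGroup.of false), by simp, by simp, Set.range FreeGroup.of,
      FreeGroup.closure_range_of Bool, ?_⟩
    rintro s ⟨i, rfl⟩ hs
    cases i with
    | false => simp
    | true => exact (hs rfl).elim

variable (H : Type) [Group H]

/-- generation of the free product -/
theorem closure_coprod (T : Set H) (hT : Subgroup.closure T = ⊤) :
    Subgroup.closure ((Monoid.Coprod.inl '' T) ∪
      (Monoid.Coprod.inr '' Set.range (FreeGroup.of (α := Bool))) :
      Set (Monoid.Coprod H (FreeGroup Bool))) = ⊤ := by
  rw [Subgroup.closure_union, ← MonoidHom.map_closure, ← MonoidHom.map_closure, hT,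
    FreeGroup.closure_range_of, ← MonoidHom.range_eq_map, ← MonoidHom.range_eq_map]
  exact Monoid.Coprod.range_inl_sup_range_inr

/-- the free product with the free group of rank two -/
def setC : Setting (Monoid.Coprod H (FreeGroup Bool)) where
  a := Monoid.Coprod.inr (FreeGroup.of false)
  b := Monoid.Coprod.inr (FreeGroup.of true)
  φ := Monoid.Coprod.lift 1 phiF
  φa := by simp [phiF]
  φb := by simp [phiF]
  univ κ := by
    refine ⟨Monoid.Coprod.lift (LL.comp Monoid.Coprod.inl) (FreeGroup.lift fun i =>
      if i then LL (Monoid.Coprod.inr (FreeGroup.of true)) * κ else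
      LL (Monoid.Coprod.inr (FreeGroup.of false))), by simp, by simp, _,
      closure_coprod H Set.univ Subgroup.closure_univ, ?_⟩
    rintro s (⟨h, -, rfl⟩ | ⟨-, ⟨i, rfl⟩, rfl⟩) hs
    · rw [Monoid.Coprod.lift_apply_inl]
      rfl
    · cases i with
      | false => simp
      | true => exact (hs rfl).elim

theorem coprod_countable [Countable H] : Countable (Monoid.Coprod H (FreeGroup Bool)) := by
  have : Countable (FreeMonoid (H ⊕ FreeGroup Bool)) :=
    inferInstanceAs (Countable (List (H ⊕ FreeGroup Bool)))
  exact (Monoid.Coprod.mk_surjective (M := H) (N := FreeGroup Bool)).countable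

theorem coprod_fg (hH : Group.FG H) : Group.FG (Monoid.Coprod H (FreeGroup Bool)) := by
  obtain ⟨S, hS⟩ := Group.fg_def.1 hH
  rw [Group.fg_iff]
  exact ⟨_, closure_coprod H S hS,
    (S.finite_toSet.image _).union ((Set.finite_range _).image _)⟩

/-- a copy of the underlying set of a group -/
def Wr (G : Type) : Type := G

/-- the set with the action -/
theorem exists_set {G : Type} [Group G] [Countable G] [Infinite G] (D : Setting G) :
    ∃ (X : Type) (_ : MulAction G X), Countable X ∧ Infinite X ∧ FaithfulSMul G X ∧
      ∀ (Z : Finset X) (τ : Equiv.Perm Z), ∃ g : G, ∀ x : Z, g • (x : X) = τ x := by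
  obtain ⟨σ, hσ, h⟩ := exists_action D
  let σ' : G →* Equiv.Perm (Wr G) := σ
  letI act : MulAction G (Wr G) := MulAction.compHom (Wr G) σ'
  have hf : FaithfulSMul G (Wr G) := by
    refine ⟨fun {g g'} hg => ?_⟩
    exact hσ (Equiv.ext hg)
  exact ⟨Wr G, act, inferInstanceAs (Countable G), inferInstanceAs (Infinite G), hf, h⟩

end

end Pool.Agent.H15.HT
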