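import Pool.Graph.R_pool_sql_team_seeded_1acbe0a2.Y39.Liou

/-!
# Highly transitive actions: ordered tuples
-/

set_option autoImplicit false

namespace Pool.Agent.H15.HT

open scoped Pointwise BigOperators
open Pool.Agent.Y39.Liou

noncomputable section

variable {G X : Type} [Group G] [MulAction G X] [DecidableEq X] (D : Data G X)

/-- contraction -/
theorem contract' {Y : Type} [MulAction G Y] (supp : Y → Finset X)
    (hsupp : ∀ (g : G) (y : Y), supp (g • y) ⊆ g • supp y) (k : ℕ) (f : Y → ℝ) (M : ℝ)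
    (hM : ∀ y, |f y| ≤ M)
    (hav : ∀ j y z, supp y ⊆ ZZ D j → supp z ⊆ ZZ D j → av D j f y = av D j f z)
    (hf : ∀ y, HasSum (fun j => cc j * av D j f y) (f y)) (m : ℕ) :
    ∀ W : Finset X, grow (UU D k) m W ⊆ ZZ D k → ∀ A B : Y,
      supp A ⊆ W → supp B ⊆ W → |f A - f B| ≤ (1 - (1 / 2) ^ k) ^ m * (2 * M) := by
  have hs : (0 : ℝ) ≤ 1 - (1 / 2) ^ k := by
    have : ((1 : ℝ) / 2) ^ k ≤ 1 := pow_le_one₀ (by norm_num) (by norm_num)
    linarith
  induction m with
  | zero =>
    intro W _ A B _ _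
    rw [pow_zero, one_mul]
    calc |f A - f B| ≤ |f A| + |f B| := abs_sub _ _
      _ ≤ 2 * M := by linarith [hM A, hM B]
  | succ m ih =>
    intro W hW A B hA hB
    have hWZ : W ⊆ ZZ D k := (le_grow _ _ _).trans hW
    -- the tail
    have htail : ∀ y, HasSum (fun j => cc (j + k) * av D (j + k) f y)
        (f y - ∑ i ∈ Finset.range k, cc i * av D i f y) := by
      intro y
      refine (hasSum_nat_add_iff (f := fun j => cc j * av D j f y) k).2 ?_
      have h9 : f y - ∑ i ∈ Finset.range k, cc i * av D i f y +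
          ∑ i ∈ Finset.range k, cc i * av D i f y = f y := by ring
      rw [h9]
      exact hf y
    have h1 : f A - ∑ i ∈ Finset.range k, cc i * av D i f A =
        f B - ∑ i ∈ Finset.range k, cc i * av D i f B := by
      refine (htail A).unique ?_
      convert htail B using 1
      funext j
      rw [hav (j + k) A B ((hA.trans hWZ).trans (ZZ_mono D (by omega)))
        ((hB.trans hWZ).trans (ZZ_mono D (by omega)))]
    have h2 : f A - f B = ∑ i ∈ Finset.range k, cc i * (av D i f A - av D i f B) := by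
      rw [Finset.sum_congr rfl (fun i _ => mul_sub (cc i) (av D i f A) (av D i f B)),
        Finset.sum_sub_distrib]
      linarith
    have h3 : ∀ i ∈ Finset.range k, |cc i * (av D i f A - av D i f B)| ≤
        cc i * ((1 - (1 / 2) ^ k) ^ m * (2 * M)) := by
      intro i hi
      rw [Finset.mem_range] at hi
      rw [abs_mul, abs_of_pos (cc_pos i)]
      refine mul_le_mul_of_nonneg_left ?_ (cc_pos i).le
      unfold av
      rw [← sub_div, ← Finset.sum_sub_distrib, abs_div, abs_of_pos (card_pos' D i),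
        div_le_iff₀ (card_pos' D i)]
      refine (Finset.abs_sum_le_sum_abs _ _).trans ?_
      refine (Finset.sum_le_card_nsmul _ _ ((1 - (1 / 2) ^ k) ^ m * (2 * M))
        (fun τ _ => ?_)).trans ?_
      · have hg : D.h i * D.sel (ZZ D i) τ ∈ UU D k := mem_UU D hi τ
        refine ih (stp (UU D k) W) hW _ _ ?_ ?_
        · exact (hsupp _ _).trans
            ((Finset.smul_finset_subset_smul_finset hA).trans (smul_le_stp hg W))
        · exact (hsupp _ _).trans
            ((Finset.smul_finset_subset_smul_finset hB).trans (smul_le_stp hg W))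
      · rw [Finset.card_univ, nsmul_eq_mul, mul_comm]
    rw [h2]
    refine (Finset.abs_sum_le_sum_abs _ _).trans ((Finset.sum_le_sum h3).trans ?_)
    rw [← Finset.sum_mul, sum_cc, pow_succ]
    exact le_of_eq (by ring)

theorem const_of' {Y : Type} [MulAction G Y] (supp : Y → Finset X)
    (hsupp : ∀ (g : G) (y : Y), supp (g • y) ⊆ g • supp y)
    (hN : ∀ k, (1 - (1 / 2 : ℝ) ^ k) ^ D.N k ≤ 1 / (k + 1 : ℝ))
    (f : Y → ℝ) (M : ℝ) (hM : ∀ y, |f y| ≤ M)
    (hav : ∀ j y z, supp y ⊆ ZZ D j → supp z ⊆ ZZ D j → av D j f y = av D j f z)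
    (hf : ∀ y, HasSum (fun j => cc j * av D j f y) (f y)) (A B : Y) : f A = f B := by
  have hM0 : 0 ≤ M := (abs_nonneg _).trans (hM A)
  obtain ⟨k₀, hk₀⟩ := exists_sub_ZZ D (supp A ∪ supp B)
  have key : ∀ k, k₀ ≤ k → |f A - f B| ≤ 1 / ((k : ℝ) + 1) * (2 * M) := by
    intro k hk
    have h1 := contract' D supp hsupp (k + 1) f M hM hav hf (D.N (k + 1)) (supp A ∪ supp B)
      ((grow_mono ((hk₀.trans (ZZ_mono D hk)).trans (Finset.subset_insert _ _)) _).trans
        (grow_le_ZZ D k)) A B Finset.subset_union_left Finset.subset_union_right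
    refine h1.trans (mul_le_mul_of_nonneg_right ((hN (k + 1)).trans ?_) (by linarith))
    apply one_div_le_one_div_of_le
    · positivity
    · push_cast; linarith
  have h2 : Filter.Tendsto (fun k : ℕ => 1 / ((k : ℝ) + 1) * (2 * M)) Filter.atTop
      (nhds (0 * (2 * M))) :=
    tendsto_one_div_add_atTop_nhds_zero_nat.mul_const _
  rw [zero_mul] at h2
  have h3 : |f A - f B| ≤ 0 :=
    ge_of_tendsto h2 (Filter.eventually_atTop.2 ⟨k₀, key⟩)
  have h4 := abs_nonpos_iff.1 h3
  linarith

/-- the points of a tuple -/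
def pts {n : ℕ} (y : Fin n ↪ X) : Finset X := Finset.univ.map y

theorem mem_pts {n : ℕ} (y : Fin n ↪ X) (i : Fin n) : y i ∈ pts y :=
  Finset.mem_map_of_mem y (Finset.mem_univ i)

theorem pts_smul {n : ℕ} (g : G) (y : Fin n ↪ X) : pts (g • y) ⊆ g • pts y := by
  intro x hx
  obtain ⟨i, -, rfl⟩ := Finset.mem_map.mp hx
  rw [Function.Embedding.smul_apply]
  exact Finset.smul_mem_smul_finset (mem_pts y i)

/-- the averages agree on the tuples in `Z_j` -/
theorem tuple_av {n : ℕ} (j : ℕ) (f : (Fin n ↪ X) → ℝ) (y z : Fin n ↪ X)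
    (hy : pts y ⊆ ZZ D j) (hz : pts z ⊆ ZZ D j) : av D j f y = av D j f z := by
  let y' : Fin n → ZZ D j := fun i => ⟨y i, hy (mem_pts y i)⟩
  let z' : Fin n → ZZ D j := fun i => ⟨z i, hz (mem_pts z i)⟩
  have hy' : Function.Injective y' := fun i i' h => y.injective (congrArg Subtype.val h)
  have hz' : Function.Injective z' := fun i i' h => z.injective (congrArg Subtype.val h)
  obtain ⟨ρ, hρ⟩ := Equiv.Perm.exists_extending_pair y' z' hy' hz'
  unfold av
  congr 1
  rw [← Equiv.sum_comp (Equiv.mulRight ρ)]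
  refine Finset.sum_congr rfl fun τ _ => ?_
  congr 1
  rw [mul_smul, mul_smul]
  congr 1
  apply Function.Embedding.ext
  intro i
  rw [Function.Embedding.smul_apply, Function.Embedding.smul_apply]
  have h1 : D.sel (ZZ D j) ((Equiv.mulRight ρ) τ) • (y' i : X) = ((Equiv.mulRight ρ) τ) (y' i) :=
    D.hsel _ _ _
  have h2 : D.sel (ZZ D j) τ • (z' i : X) = τ (z' i) := D.hsel _ _ _
  have h3 : ((Equiv.mulRight ρ) τ) (y' i) = τ (z' i) := by
    show τ (ρ (y' i)) = _
    rw [hρ]
  exact h1.trans ((congrArg Subtype.val h3).trans h2.symm)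

/-- Highly transitive actions of countable groups: one measure of full support for which all the
actions on ordered `n`-tuples of different points and on `n`-element subsets are Liouville. -/
theorem tuples (G X : Type) [Group G] [MulAction G X] [DecidableEq X] [Countable G] [Countable X]
    [Nonempty X]
    (hX : ∀ (Z : Finset X) (τ : Equiv.Perm Z), ∃ g : G, ∀ x : Z, g • (x : X) = τ x) :
    ∃ μ : PMF G, (∀ g, μ g ≠ 0) ∧
      (∀ n : ℕ, ∀ f : (Fin n ↪ X) → ℝ, (∃ M, ∀ y, |f y| ≤ M) →
        (∀ y, f y = ∑' z, f z * ((μ.map (fun g => g • y)) z).toReal) → ∀ A B, f A = f B) ∧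
      ∀ n : ℕ, ∀ f : Set.powersetCard X n → ℝ, (∃ M, ∀ y, |f y| ≤ M) →
        (∀ y, f y = ∑' z, f z * ((μ.map (fun g => g • y)) z).toReal) → ∀ A B, f A = f B := by
  classical
  obtain ⟨h, hh⟩ := exists_surjective_nat G
  obtain ⟨e, he⟩ := exists_surjective_nat X
  have hN : ∀ k : ℕ, ∃ N : ℕ, (1 - (1 / 2 : ℝ) ^ k) ^ N ≤ 1 / (k + 1 : ℝ) := by
    intro k
    have h1 : (1 - (1 / 2 : ℝ) ^ k) < 1 := by
      have : (0 : ℝ) < (1 / 2) ^ k := by positivity
      linarith
    have h2 : (0 : ℝ) < 1 / (k + 1 : ℝ) := by positivity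
    have h0 : (0 : ℝ) ≤ 1 - (1 / 2 : ℝ) ^ k := by
      have : ((1 : ℝ) / 2) ^ k ≤ 1 := pow_le_one₀ (by norm_num) (by norm_num)
      linarith
    obtain ⟨N, hN⟩ := exists_pow_lt_of_lt_one h2 h1
    exact ⟨N, hN.le⟩
  choose N hN using hN
  choose s hs using hX
  let D : Data G X :=
    { h := h
      hh := hh
      e := e
      he := he
      sel := fun Z τ => if τ = 1 then 1 else s Z τ
      hsel := by
        intro Z τ x
        by_cases hτ : τ = 1
        · rw [if_pos hτ, one_smul, hτ]; rfl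
        · rw [if_neg hτ]; exact hs Z τ x
      hsel1 := fun Z => if_pos rfl
      N := N }
  refine ⟨mu D, mu_support D, fun n f ⟨M, hM⟩ hf A B => ?_, fun n f ⟨M, hM⟩ hf A B => ?_⟩
  · exact const_of' D pts pts_smul hN f M hM (fun j y z hy hz => tuple_av D j f y z hy hz)
      (fun y => harmonic_eq D f M hM hf y) A B
  · exact const_of D hN f M hM (fun y => harmonic_eq D f M hM hf y) A B

end

end Pool.Agent.H15.HT
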